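import Mathlib
set_option autoImplicit false
namespace Pool.Agent.Results.MP_81fb9f_gt.Counter
open Set Topology Filter TopologicalSpace

def IsConvSeq {X : Type} [TopologicalSpace X] (A : Set X) : Prop :=
  ∃ (x : ℕ → X) (a : X), Tendsto x atTop (𝓝 a) ∧ A = insert a (range x)

def SX (X : Type) [TopologicalSpace X] : Set (NonemptyCompacts X) :=
  {K | ∃ 𝒜 : Set (Set X), 𝒜.Finite ∧ (∀ A ∈ 𝒜, IsConvSeq A) ∧ ↑K = ⋃₀ 𝒜}

def SigmaLocFin {Y : Type} [TopologicalSpace Y] (𝒩 : Set (Set Y)) : Prop :=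
  ∃ 𝒬 : ℕ → Set (Set Y), 𝒩 = ⋃ n, 𝒬 n ∧ ∀ n, LocallyFinite fun P : 𝒬 n => (P : Set Y)

def IsSigmaSpace (Y : Type) [TopologicalSpace Y] : Prop :=
  T3Space Y ∧ ∃ 𝒩 : Set (Set Y), SigmaLocFin 𝒩 ∧
    ∀ y U, IsOpen U → y ∈ U → ∃ P ∈ 𝒩, y ∈ P ∧ P ⊆ U

def IsAlephSpace (Y : Type) [TopologicalSpace Y] : Prop :=
  T3Space Y ∧ ∃ 𝒩 : Set (Set Y), SigmaLocFin 𝒩 ∧
    ∀ K U, IsCompact K → IsOpen U → K ⊆ U → ∃ ℱ ⊆ 𝒩, ℱ.Finite ∧ K ⊆ ⋃₀ ℱ ∧ ⋃₀ ℱ ⊆ U

def X : Type := Option (ℝ × ℕ)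

def o : X := none
def pt (a : ℝ) (n : ℕ) : X := some (a, n)

lemma cases (x : X) : x = o ∨ ∃ a n, x = pt a n := by
  rcases x with _ | ⟨a, n⟩
  exacts [Or.inl rfl, Or.inr ⟨a, n, rfl⟩]

lemma pt_ne (a : ℝ) (n : ℕ) : pt a n ≠ o := Option.some_ne_none _

lemma pt_inj {a b : ℝ} {m n : ℕ} (h : pt a m = pt b n) : a = b ∧ m = n :=
  Prod.mk.inj (Option.some.inj h)

instance : TopologicalSpace X where
  IsOpen U := o ∈ U → ∀ a, ∀ᶠ n in atTop, pt a n ∈ U
  isOpen_univ _ _ := .of_forall fun _ => trivial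
  isOpen_inter _ _ h h' hx a := (h hx.1 a).and (h' hx.2 a)
  isOpen_sUnion _ h := fun ⟨U, hU, hx⟩ a => (h U hU hx a).mono fun _ h => ⟨U, hU, h⟩

def N (f : ℝ → ℕ) : Set X := {x | ∀ a n, x = pt a n → f a ≤ n}

lemma o_N (f : ℝ → ℕ) : o ∈ N f := fun _ _ h => (pt_ne _ _ h.symm).elim

lemma pt_N {f : ℝ → ℕ} {a : ℝ} {n : ℕ} : pt a n ∈ N f ↔ f a ≤ n :=
  ⟨fun h => h a n rfl, fun h _ _ h' => (pt_inj h').1 ▸ (pt_inj h').2 ▸ h⟩

lemma open_of {U : Set X} {f : ℝ → ℕ} (h : N f ⊆ U) : IsOpen U := fun _ a =>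
  (eventually_ge_atTop (f a)).mono fun _ h' => h (pt_N.2 h')

lemma open_of' {U : Set X} (h : o ∉ U) : IsOpen U := fun h' => (h h').elim

lemma ex_N {U : Set X} (h : IsOpen U) (h' : o ∈ U) : ∃ f, N f ⊆ U := by
  choose f hf using fun a => eventually_atTop.1 (h h' a)
  refine ⟨f, fun x hx => ?_⟩
  rcases cases x with rfl | ⟨a, n, rfl⟩
  exacts [h', hf a n (pt_N.1 hx)]

lemma pt_clopen (a : ℝ) (n : ℕ) : IsClopen {pt a n} :=
  ⟨⟨open_of (f := fun _ => n + 1) fun _ h h' => (h a n h').not_gt n.lt_succ_self⟩,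
    open_of' (pt_ne a n).symm⟩

instance : T3Space X :=
  have : T0Space X := ⟨fun x y h => by
    rcases cases x with rfl | ⟨a, n, rfl⟩
    · rcases cases y with rfl | ⟨a, n, rfl⟩
      exacts [rfl, (h.mem_open_iff (pt_clopen a n).2).2 rfl]
    · exact ((h.mem_open_iff (pt_clopen a n).2).1 rfl).symm⟩
  have : CompletelyRegularSpace X := .of_isTopologicalBasis_clopens
    (isTopologicalBasis_of_isOpen_of_nhds (fun _ h => h.2) fun x U hx hU => by
      rcases cases x with rfl | ⟨a, n, rfl⟩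
      · obtain ⟨f, hf⟩ := ex_N hU hx
        exact ⟨_, ⟨⟨open_of' (not_not.2 (o_N f))⟩, open_of Subset.rfl⟩, o_N f, hf⟩
      · exact ⟨_, pt_clopen a n, rfl, singleton_subset_iff.2 hx⟩)
  inferInstance

lemma fin_out {K : Set X} (hK : IsCompact K) (f : ℝ → ℕ) : (K \ N f).Finite := by
  refine (hK.diff (open_of Subset.rfl)).finite (isDiscrete_iff_forall_exists_isOpen.2 fun x hx => ?_)
  exact ⟨{x}, open_of' fun h => hx.2 (h ▸ o_N f), inter_eq_left.2 (singleton_subset_iff.2 hx)⟩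

lemma fin_supp {K : Set X} (hK : IsCompact K) : {a | ∃ n, pt a n ∈ K}.Finite := by
  choose! g hg using fun a (h : ∃ n, pt a n ∈ K) => h
  refine .of_finite_image (f := fun a => pt a (g a)) ((fin_out hK fun a => g a + 1).subset ?_)
    fun _ _ _ _ h => (pt_inj h).1
  rintro _ ⟨a, ha, rfl⟩
  exact ⟨hg a ha, fun h => (pt_N.1 h).not_gt (Nat.lt_succ_self _)⟩

def P (n : ℕ) (b : Bool) (A : Set X) : Set (SX X) :=
  {T | (T.1 : Set X) \ N (fun _ => n) = A ∧ (o ∈ T.1 ↔ b) ∧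
    ∀ a m, pt a m ∈ T.1 → (∃ k, pt a k ∈ A) ∧ (b ∨ m < n)}

lemma sigma : IsSigmaSpace (SX X) := by
  classical
  refine ⟨inferInstance, _, ⟨fun n => {Q | ∃ b A, Q = P n b A}, rfl, fun n S => ?_⟩,
    fun S U hU hS => ?_⟩
  · have h1 := fin_out S.1.isCompact fun _ => n
    set A := (S.1 : Set X) \ N fun _ => n
    refine ⟨_, ((continuous_subtype_val.isOpen_preimage _
      ((NonemptyCompacts.isOpen_subsets_of_isOpen (open_of (f := fun _ => n) (U := N (fun _ => n) ∪ A)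
        subset_union_left)).inter (h1.isOpen_biInter fun x hx =>
        NonemptyCompacts.isOpen_inter_nonempty_of_isOpen (open_of' (U := {x})
          fun h => hx.2 (h ▸ o_N _)))))).mem_nhds ⟨by simp [A], by simpa using fun _ h => h.1⟩,
      ((finite_range fun b => P n b A).preimage Subtype.val_injective.injOn).subset ?_⟩
    rintro ⟨_, b, B, rfl⟩ ⟨T, ⟨rfl, -⟩, h2, h3⟩
    refine ⟨b, congrArg _ (Subset.antisymm (fun x hx => ⟨?_, hx.2⟩)
      fun x hx => (h2 hx.1).resolve_left hx.2)⟩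
    simpa using mem_iInter₂.1 h3 x hx
  · let Q := fun n => P n (o ∈ S.1) ((S.1 : Set X) \ N fun _ => n)
    have h1 := fin_supp S.1.isCompact
    have h2 : Tendsto Prod.snd (comap Prod.fst atTop ⊓ 𝓟 {q : ℕ × SX X | q.2 ∈ Q q.1}) (𝓝 S) := by
      letI := TopologicalSpace.vietoris X
      rw [(NonemptyCompacts.isEmbedding_coe.comp .subtypeVal).tendsto_nhds_iff,
        tendsto_nhds_generateFrom_iff]
      rintro _ (⟨V, hV, rfl⟩ | ⟨V, hV, rfl⟩) h <;> refine mem_inf_principal.2 (mem_comap'.2 ?_)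
      · have h3 : ∀ᶠ n in atTop, o ∈ S.1 → ∀ a, (∃ n, pt a n ∈ S.1) → ∀ m ≥ n, pt a m ∈ V := by
          refine eventually_imp_distrib_left.2 fun h3 => (eventually_all_finite h1).2 fun a _ => ?_
          exact eventually_forall_ge_atTop.2 (hV (h h3) a)
        filter_upwards [h3]
        rintro _ h3 ⟨n, T⟩ rfl ⟨h4, h5, h6⟩ x hx
        rcases cases x with rfl | ⟨a, m, rfl⟩
        · exact h (by simpa using h5.1 hx)
        · rcases lt_or_ge m n with h7 | h7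
          · exact h (h4.le ⟨hx, fun h => (pt_N.1 h).not_gt h7⟩).1
          · exact h3 (by simpa using (h6 a m hx).2.resolve_right h7.not_gt) a
              ((h6 a m hx).1.imp fun _ h => h.1) m h7
      · obtain ⟨x, h3, h4⟩ := h
        rcases cases x with rfl | ⟨a, m, rfl⟩
        · refine univ_mem' ?_
          rintro _ ⟨n, T⟩ rfl h
          exact ⟨o, h.2.1.2 (decide_eq_true h3), h4⟩
        · filter_upwards [eventually_gt_atTop m]
          rintro _ h5 ⟨n, T⟩ rfl h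
          exact ⟨_, (h.1.ge ⟨h3, fun h => (pt_N.1 h).not_gt h5⟩).1, h4⟩
    have h3 : ∀ᶠ n in atTop, ∀ a, (∃ n, pt a n ∈ S.1) → ∃ k < n, pt a k ∈ S.1 :=
      (eventually_all_finite h1).2 fun a ⟨k, hk⟩ => (eventually_gt_atTop k).mono fun _ h => ⟨k, h, hk⟩
    have h4 : ∀ᶠ n in atTop, o ∉ S.1 → ∀ a m, pt a m ∈ S.1 → m < n := by
      refine eventually_imp_distrib_left.2 fun h4 => ?_
      obtain ⟨f, hf⟩ := ex_N S.1.isCompact.isClosed.isOpen_compl h4
      have h5 : {q : ℝ × ℕ | pt q.1 q.2 ∈ S.1}.Finite := ((fin_out S.1.isCompact f).preimage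
        (Option.some_injective _).injOn).subset fun q hq => ⟨hq, fun h => hf h hq⟩
      filter_upwards [(eventually_all_finite h5).2 fun q _ => eventually_gt_atTop q.2]
        with n h a m hm using h (a, m) hm
    obtain ⟨n, h5, h6, h7⟩ := (Eventually.and (mem_comap'.1 (mem_inf_principal.1 (h2 (hU.mem_nhds hS))))
      (h3.and h4)).exists
    refine ⟨Q n, mem_iUnion.2 ⟨n, _, _, rfl⟩, ⟨rfl, by simp, fun a m h => ⟨?_, ?_⟩⟩,
      fun T hT => @h5 (n, T) rfl hT⟩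
    · exact (h6 a ⟨m, h⟩).imp fun k h => ⟨h.2, fun h' => (pt_N.1 h').not_gt h.1⟩
    · exact or_iff_not_imp_left.2 fun h8 => h7 (by simpa using h8) a m h

theorem result : ∃ (X : Type) (_ : TopologicalSpace X), T2Space X ∧
    IsSigmaSpace (SX X) ∧ ¬ IsAlephSpace (SX X) := by
  classical
  refine ⟨X, inferInstance, inferInstance, sigma, ?_⟩
  rintro ⟨-, _, ⟨𝒬, rfl, h1⟩, h2⟩
  let e : X → SX X := fun x => ⟨{x}, {{x}}, finite_singleton _, fun _ h =>
    ⟨fun _ => x, x, tendsto_const_nhds, by simpa using h⟩, by simp⟩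
  have he : Continuous e := NonemptyCompacts.continuous_singleton.subtype_mk _
  have h3 : {A ∈ ⋃ n, 𝒬 n | e o ∈ closure A}.Countable := by
    refine (countable_iUnion fun n => (((h1 n).closure.point_finite (e o)).image
      Subtype.val).countable).mono ?_
    rintro A ⟨h3, h4⟩
    obtain ⟨n, hn⟩ := mem_iUnion.1 h3
    exact mem_iUnion.2 ⟨n, ⟨A, hn⟩, h4, rfl⟩
  set C := {A ∈ ⋃ n, 𝒬 n | e o ∈ closure A}
  let s : Set (SX X) → Set ℝ := fun A => {a | ∃ n, e (pt a n) ∈ A}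
  obtain ⟨f, hf⟩ : ∃ f : ℝ → ℕ, ∀ A ∈ C, (s A).Infinite → ∃ a n, n < f a ∧ e (pt a n) ∈ A := by
    obtain ⟨g, hg⟩ := countable_iff_exists_injOn.1 h3
    choose! t t1 t2 t3 using fun A (h : (s A).Infinite) => h.exists_subset_countable_infinite
    obtain ⟨i, hi⟩ := countable_iff_exists_injOn.1 ((h3.mono (sep_subset _ fun A =>
      (s A).Infinite)).biUnion fun A h => t2 A h.2)
    choose! n hn using fun A a (h : a ∈ s A) => h
    choose f hf using fun a => ((Finite.of_finite_image (s := {A ∈ C | g A ≤ i a}) ((finite_Iic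
      (i a)).subset (image_subset_iff.2 fun _ h => h.2)) (hg.mono (sep_subset _ _))).image
      fun A => n A a + 1).bddAbove
    refine ⟨f, fun A h4 h5 => ?_⟩
    obtain ⟨_, ⟨a, h6, rfl⟩, h7⟩ := ((t3 A h5).image (hi.mono (subset_biUnion_of_mem
      (u := t) (mem_sep_iff.2 ⟨h4, h5⟩)))).exists_gt (g A)
    exact ⟨a, _, hf a ⟨A, ⟨h4, h7.le⟩, rfl⟩, hn A a (t1 A h5 h6)⟩
  obtain ⟨a, ha⟩ : ∃ a, a ∉ ⋃ A ∈ {A ∈ C | (s A).Finite}, s A := by
    by_contra! h
    exact not_countable_univ (((h3.mono (sep_subset _ _)).biUnion fun A h => h.2.countable).mono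
      fun a _ => h a)
  have h4 : Tendsto (fun n => e (pt a (n + f a))) atTop (𝓝 (e o)) := (he.tendsto o).comp
    (tendsto_nhds.2 fun U hU h => (tendsto_add_atTop_nat _).eventually (hU h a))
  obtain ⟨ℱ, h5, h6, h7, h8⟩ := h2 _ _ h4.isCompact_insert_range (continuous_subtype_val.isOpen_preimage
    _ (NonemptyCompacts.isOpen_subsets_of_isOpen (open_of (f := f) Subset.rfl))) (by
      rintro _ (rfl | ⟨n, rfl⟩)
      exacts [singleton_subset_iff.2 (o_N f), singleton_subset_iff.2 (pt_N.2 le_add_self)])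
  obtain ⟨A, h9, h10⟩ := (frequently_exists_finite (l := atTop) h6
    (p := fun A n => e (pt a (n + f a)) ∈ A)).1 (.of_forall fun n => h7 (Or.inr ⟨n, rfl⟩))
  have h11 : A ∈ C := ⟨h5 h9, mem_closure_of_frequently_of_tendsto h10 h4⟩
  obtain ⟨b, n, h12, h13⟩ := hf A h11 fun h => ha (mem_biUnion ⟨h11, h⟩
    (h10.exists.elim fun n h => ⟨_, h⟩))
  exact (pt_N.1 (h8 ⟨A, h9, h13⟩ rfl)).not_gt h12

end Pool.Agent.Results.MP_81fb9f_gt.Counter
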